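import Pool.Agent.Helper68.EKC.GibbsU

set_option autoImplicit false

open Complex MeasureTheory Metric Set
open scoped Real ComplexConjugate

/-!
Project CKC, FinC: from the bound for the circle means of `exp (- κ Re (conj u L))` with exponent
`κ - 1 + dl + e` (every `e > 0`) for functions analytic on a larger disc to the class Σ and all
larger powers in the same direction.
-/

namespace Pool.Agent.Helper58.CKC

open Pool.Agent.Helper39.Area Pool.Agent.Helper52.EK Pool.Agent.Helper9.EK Pool.Agent.Helper61.EK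
open Pool.Agent.Helper68.EKC

/-- all radii and all `Ext β`, by scaling -/
theorem moment_US {κ s : ℝ} (hκ : 0 ≤ κ) (hs0 : 0 ≤ s) {u : ℂ} (hu : ‖u‖ = 1)
    (hM : ∃ C a₀ : ℝ, a₀ < 1 ∧ ∀ (β L : ℂ → ℂ) (R a : ℝ), ExtR β R → IsLog β L → a₀ < a → a < 1 →
      (2 * π)⁻¹ * (∫ α in (0:ℝ)..(2 * π),
        Real.exp (-(κ * (conj u * L (a * Complex.exp (α * I))).re))) ≤
        C * (1 - a ^ 2) ^ (-s)) :
    ∃ C : ℝ, ∀ (β L : ℂ → ℂ) (r : ℝ), Ext β → IsLog β L → 0 < r → r < 1 →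
      (2 * π)⁻¹ * (∫ α in (0:ℝ)..(2 * π),
        Real.exp (-(κ * (conj u * L (r * Complex.exp (α * I))).re))) ≤
        C * (1 - r ^ 2) ^ (-s) := by
  obtain ⟨C₀, a₀, ha₀, hM⟩ := hM
  obtain ⟨C₁, hC₁⟩ : ∃ C₁ : ℝ, C₁ = |C₀| * 2 ^ s := ⟨_, rfl⟩
  have hC₁0 : 0 ≤ C₁ := by rw [hC₁]; positivity
  obtain ⟨b, hb⟩ : ∃ b : ℝ, b = max a₀ 0 := ⟨_, rfl⟩
  have hb0 : 0 ≤ b := by rw [hb]; exact le_max_right _ _
  have hb1 : b < 1 := by rw [hb]; exact max_lt ha₀ one_pos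
  have hab : a₀ ≤ b := by rw [hb]; exact le_max_left _ _
  have h1b : 0 < 1 - b ^ 2 := by nlinarith
  obtain ⟨C₂, hC₂⟩ : ∃ C₂ : ℝ, C₂ = Real.exp (κ * (-Real.log (1 - b ^ 2))) := ⟨_, rfl⟩
  have hC₂0 : 0 ≤ C₂ := by rw [hC₂]; positivity
  refine ⟨C₁ + C₂, ?_⟩
  intro β L r hβ hL hr0 hr1
  have hπ : 0 < 2 * π := by positivity
  have h1r : 0 < 1 - r ^ 2 := by nlinarith
  have h1r1 : 1 - r ^ 2 ≤ 1 := by nlinarith
  have hpow1 : 1 ≤ (1 - r ^ 2) ^ (-s) :=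
    Real.one_le_rpow_of_pos_of_le_one_of_nonpos h1r h1r1 (by linarith)
  rcases le_or_gt r b with hrb | hrb
  · -- small radius
    have hle : ∀ α : ℝ, Real.exp (-(κ * (conj u * L (r * Complex.exp (α * I))).re)) ≤ C₂ := by
      intro α
      rw [hC₂]
      apply Real.exp_le_exp.mpr
      have h2 := hL.goluzin hβ (circ_mem hr0 hr1 α)
      rw [norm_mul, Complex.norm_exp_ofReal_mul_I, mul_one, Complex.norm_real,
        Real.norm_of_nonneg hr0.le] at h2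
      have h3 : Real.log (1 - b ^ 2) ≤ Real.log (1 - r ^ 2) :=
        Real.log_le_log h1b (by nlinarith)
      have h4 : -(conj u * L (r * Complex.exp (α * I))).re ≤
          ‖L (r * Complex.exp (α * I))‖ := by
        have h5 := Complex.abs_re_le_norm (conj u * L (r * Complex.exp (α * I)))
        rw [norm_mul, RCLike.norm_conj, hu, one_mul] at h5
        exact (neg_le_abs _).trans h5
      have h6 : -(conj u * L (r * Complex.exp (α * I))).re ≤ -Real.log (1 - b ^ 2) := by linarith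
      nlinarith
    have hcont : IntervalIntegrable (fun α : ℝ =>
        Real.exp (-(κ * (conj u * L (r * Complex.exp (α * I))).re))) volume 0 (2 * π) := by
      apply Continuous.intervalIntegrable
      exact Real.continuous_exp.comp (continuous_const.mul
        (Complex.continuous_re.comp (continuous_const.mul (L_circ_cont hL hr0 hr1)))).neg
    have hint : (∫ α in (0:ℝ)..(2 * π),
        Real.exp (-(κ * (conj u * L (r * Complex.exp (α * I))).re))) ≤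
        ∫ _α in (0:ℝ)..(2 * π), C₂ :=
      intervalIntegral.integral_mono_on hπ.le hcont intervalIntegrable_const (fun α _ => hle α)
    rw [intervalIntegral.integral_const, smul_eq_mul, sub_zero] at hint
    have h3 := mul_le_mul_of_nonneg_left hint (inv_pos.mpr hπ).le
    rw [inv_mul_cancel_left₀ hπ.ne'] at h3
    calc _ ≤ C₂ := h3
      _ ≤ C₂ * (1 - r ^ 2) ^ (-s) := le_mul_of_one_le_right hC₂0 hpow1
      _ ≤ (C₁ + C₂) * (1 - r ^ 2) ^ (-s) :=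
          mul_le_mul_of_nonneg_right (by linarith) (by positivity)
  · -- scaling
    have hex : ∃ ρ : ℝ, r < ρ ∧ ρ < 1 ∧ b < r / ρ ∧ (1 - r ^ 2) / 2 ≤ 1 - (r / ρ) ^ 2 := by
      have hcts : Filter.Tendsto (fun ρ : ℝ => r / ρ) (nhdsWithin 1 (Iio 1)) (nhds r) := by
        have h2 : ContinuousAt (fun ρ : ℝ => r / ρ) 1 :=
          continuousAt_const.div continuousAt_id one_ne_zero
        have h3 := h2.tendsto
        simp only [div_one] at h3
        exact h3.mono_left nhdsWithin_le_nhds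
      have hcts2 : Filter.Tendsto (fun ρ : ℝ => 1 - (r / ρ) ^ 2) (nhdsWithin 1 (Iio 1))
          (nhds (1 - r ^ 2)) := (hcts.pow 2).const_sub 1
      have e1 : ∀ᶠ ρ in nhdsWithin (1:ℝ) (Iio 1), b < r / ρ := hcts.eventually_const_lt hrb
      have e2 : ∀ᶠ ρ in nhdsWithin (1:ℝ) (Iio 1), (1 - r ^ 2) / 2 < 1 - (r / ρ) ^ 2 :=
        hcts2.eventually_const_lt (by linarith)
      have e3 : ∀ᶠ ρ in nhdsWithin (1:ℝ) (Iio 1), r < ρ :=
        (eventually_gt_nhds hr1).filter_mono nhdsWithin_le_nhds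
      have e4 : ∀ᶠ ρ in nhdsWithin (1:ℝ) (Iio 1), ρ < 1 := eventually_mem_nhdsWithin
      obtain ⟨ρ, h4, h5, h6, h7⟩ := (e1.and (e2.and (e3.and e4))).exists
      exact ⟨ρ, h6, h7, h4, h5.le⟩
    obtain ⟨ρ, hrρ, hρ1, hbρ, hhalf⟩ := hex
    have hρ0 : 0 < ρ := hr0.trans hrρ
    have ha1 : r / ρ < 1 := by rw [div_lt_one hρ0]; exact hrρ
    have ha0 : 0 < r / ρ := by positivity
    have h2 := hM _ _ _ (r / ρ) (Pool.Agent.Helper28.EK.scale_ExtR hβ hρ0 hρ1)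
      (hL.scale hβ hρ0 hρ1) (lt_of_le_of_lt hab hbρ) ha1
    have hLeq : ∀ α : ℝ, (ρ : ℂ) * (((r / ρ : ℝ) : ℂ) * Complex.exp (α * I)) =
        r * Complex.exp (α * I) := by
      intro α
      have hρC : (ρ : ℂ) ≠ 0 := by exact_mod_cast hρ0.ne'
      push_cast
      field_simp
    simp only [hLeq] at h2
    have h3 : (1 - (r / ρ) ^ 2) ^ (-s) ≤ 2 ^ s * (1 - r ^ 2) ^ (-s) := by
      have h4 : (1 - (r / ρ) ^ 2) ^ (-s) ≤ ((1 - r ^ 2) / 2) ^ (-s) :=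
        Real.rpow_le_rpow_of_nonpos (by linarith) hhalf (by linarith)
      refine h4.trans (le_of_eq ?_)
      rw [Real.div_rpow h1r.le (by norm_num), Real.rpow_neg (by norm_num : (0:ℝ) ≤ 2), div_inv_eq_mul,
        mul_comm]
    have h6 : 0 < 1 - (r / ρ) ^ 2 := by linarith
    calc _ ≤ C₀ * (1 - (r / ρ) ^ 2) ^ (-s) := h2
      _ ≤ |C₀| * (1 - (r / ρ) ^ 2) ^ (-s) :=
          mul_le_mul_of_nonneg_right (le_abs_self _) (by positivity)
      _ ≤ |C₀| * (2 ^ s * (1 - r ^ 2) ^ (-s)) :=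
          mul_le_mul_of_nonneg_left h3 (abs_nonneg _)
      _ = C₁ * (1 - r ^ 2) ^ (-s) := by rw [hC₁]; ring
      _ ≤ (C₁ + C₂) * (1 - r ^ 2) ^ (-s) :=
          mul_le_mul_of_nonneg_right (by linarith) (by positivity)


/-- larger powers -/
theorem larger_US {κ κ' s : ℝ} (hκ : κ ≤ κ') {u : ℂ} (hu : ‖u‖ = 1)
    (hM : ∃ C : ℝ, ∀ (β L : ℂ → ℂ) (r : ℝ), Ext β → IsLog β L → 0 < r → r < 1 →
      (2 * π)⁻¹ * (∫ α in (0:ℝ)..(2 * π),
        Real.exp (-(κ * (conj u * L (r * Complex.exp (α * I))).re))) ≤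
        C * (1 - r ^ 2) ^ (-s)) :
    ∃ C : ℝ, ∀ (β L : ℂ → ℂ) (r : ℝ), Ext β → IsLog β L → 0 < r → r < 1 →
      (2 * π)⁻¹ * (∫ α in (0:ℝ)..(2 * π),
        Real.exp (-(κ' * (conj u * L (r * Complex.exp (α * I))).re))) ≤
        C * (1 - r ^ 2) ^ (-(s + (κ' - κ))) := by
  obtain ⟨C, hC⟩ := hM
  refine ⟨C, ?_⟩
  intro β L r hβ hL hr0 hr1
  have hπ : 0 < 2 * π := by positivity
  have h1r : 0 < 1 - r ^ 2 := by nlinarith
  have hcont : ∀ q : ℝ, IntervalIntegrable (fun α : ℝ =>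
      Real.exp (-(q * (conj u * L (r * Complex.exp (α * I))).re))) volume 0 (2 * π) := by
    intro q
    apply Continuous.intervalIntegrable
    exact Real.continuous_exp.comp (continuous_const.mul
      (Complex.continuous_re.comp (continuous_const.mul (L_circ_cont hL hr0 hr1)))).neg
  have hle : ∀ α : ℝ, Real.exp (-(κ' * (conj u * L (r * Complex.exp (α * I))).re)) ≤
      (1 - r ^ 2) ^ (-(κ' - κ)) *
        Real.exp (-(κ * (conj u * L (r * Complex.exp (α * I))).re)) := by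
    intro α
    have h2 := hL.goluzin hβ (circ_mem hr0 hr1 α)
    rw [norm_mul, Complex.norm_exp_ofReal_mul_I, mul_one, Complex.norm_real,
      Real.norm_of_nonneg hr0.le] at h2
    have h5 := Complex.abs_re_le_norm (conj u * L (r * Complex.exp (α * I)))
    rw [norm_mul, RCLike.norm_conj, hu, one_mul] at h5
    have h6 := (neg_le_abs _).trans (h5.trans h2)
    rw [Real.rpow_def_of_pos h1r, ← Real.exp_add]
    apply Real.exp_le_exp.mpr
    nlinarith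
  have hint := intervalIntegral.integral_mono_on hπ.le (hcont κ') ((hcont κ).const_mul _)
    (fun α _ => hle α)
  rw [intervalIntegral.integral_const_mul] at hint
  have hq0 : (0:ℝ) ≤ (1 - r ^ 2) ^ (-(κ' - κ)) := by positivity
  have h5 := hC β L r hβ hL hr0 hr1
  calc (2 * π)⁻¹ * (∫ α in (0:ℝ)..(2 * π),
        Real.exp (-(κ' * (conj u * L (r * Complex.exp (α * I))).re)))
      ≤ (2 * π)⁻¹ * ((1 - r ^ 2) ^ (-(κ' - κ)) * ∫ α in (0:ℝ)..(2 * π),
        Real.exp (-(κ * (conj u * L (r * Complex.exp (α * I))).re))) :=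
        mul_le_mul_of_nonneg_left hint (by positivity)
    _ = (1 - r ^ 2) ^ (-(κ' - κ)) * ((2 * π)⁻¹ * ∫ α in (0:ℝ)..(2 * π),
        Real.exp (-(κ * (conj u * L (r * Complex.exp (α * I))).re))) := by ring
    _ ≤ (1 - r ^ 2) ^ (-(κ' - κ)) * (C * (1 - r ^ 2) ^ (-s)) :=
        mul_le_mul_of_nonneg_left h5 hq0
    _ = C * (1 - r ^ 2) ^ (-(s + (κ' - κ))) := by
        have e : -(s + (κ' - κ)) = -(κ' - κ) + -s := by ring
        rw [e, Real.rpow_add h1r]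
        ring

/-- the class Sigma -/
theorem final_US {κ s : ℝ} {u : ℂ} (hM : ∃ C : ℝ, ∀ (β L : ℂ → ℂ) (r : ℝ), Ext β → IsLog β L →
      0 < r → r < 1 → (2 * π)⁻¹ * (∫ α in (0:ℝ)..(2 * π),
        Real.exp (-(κ * (conj u * L (r * Complex.exp (α * I))).re))) ≤
        C * (1 - r ^ 2) ^ (-s)) :
    ∃ C : ℝ, ∀ ψ h : ℂ → ℂ, DifferentiableOn ℂ ψ {z : ℂ | 1 < ‖z‖} →
      InjOn ψ {z : ℂ | 1 < ‖z‖} →
      (∃ b : ℂ, Filter.Tendsto (fun z => ψ z - z) (Bornology.cobounded ℂ) (nhds b)) →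
      DifferentiableOn ℂ h {z : ℂ | 1 < ‖z‖} →
      (∀ z : ℂ, 1 < ‖z‖ → Complex.exp (h z) = deriv ψ z) →
      Filter.Tendsto h (Bornology.cobounded ℂ) (nhds 0) →
      ∀ R : ℝ, 1 < R →
      (2 * π)⁻¹ * (∫ θ in (0:ℝ)..(2 * π),
        Real.exp (-(κ * (conj u * h (R * Complex.exp (θ * I))).re))) ≤
        C * (R ^ 2 / (R ^ 2 - 1)) ^ s := by
  obtain ⟨C, hC⟩ := hM
  refine ⟨C, ?_⟩
  rintro ψ h hψ hinj ⟨b, hb⟩ hh hexp hh0 R hR
  have hR0 : 0 < R := by linarith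
  obtain ⟨hE, hex⟩ := ext_data hψ hinj hb hexp
  have hr0 : 0 < R⁻¹ := by positivity
  have hr1 : R⁻¹ < 1 := inv_lt_one_of_one_lt₀ hR
  have hLog : IsLog (toDisc b (fun z => ψ z - z)) (toDisc 0 h) :=
    ⟨(toDisc_diff hh hh0).continuousOn, by simp [toDisc], hex⟩
  have hmain := hC _ _ R⁻¹ hE hLog hr0 hr1
  obtain ⟨k, hk⟩ : ∃ k : ℝ → ℝ, k = fun (α : ℝ) =>
    Real.exp (-(κ * (conj u * toDisc 0 h (((R⁻¹ : ℝ) : ℂ) * Complex.exp (α * I))).re)) :=
    ⟨_, rfl⟩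
  have h1 : ∀ θ : ℝ, Real.exp (-(κ * (conj u * h (R * Complex.exp (θ * I))).re)) = k (-θ) := by
    intro θ
    have hne0 : ((R⁻¹ : ℝ) : ℂ) * Complex.exp (((-θ : ℝ) : ℂ) * I) ≠ 0 := by
      apply mul_ne_zero _ (Complex.exp_ne_zero _)
      exact_mod_cast inv_ne_zero hR0.ne'
    have h2 : (((R⁻¹ : ℝ) : ℂ) * Complex.exp (((-θ : ℝ) : ℂ) * I))⁻¹ =
        (R : ℂ) * Complex.exp ((θ : ℂ) * I) := by
      rw [mul_inv, ← Complex.exp_neg]
      push_cast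
      rw [inv_inv]
      congr 2
      ring
    simp only [hk, toDisc]
    rw [if_neg hne0, h2]
  simp_rw [h1]
  rw [intervalIntegral.integral_comp_neg (fun θ => k θ)]
  have hper : Function.Periodic k (2 * π) := by
    intro θ
    simp only [hk]
    rw [exp_per]
  have h2 := hper.intervalIntegral_add_eq (-(2 * π)) 0
  have e1 : -(2 * π) + 2 * π = (0:ℝ) := by ring
  have e2 : (0:ℝ) + 2 * π = 2 * π := by ring
  rw [e1, e2] at h2
  rw [neg_zero, h2]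
  have hRR : 0 < R ^ 2 - 1 := by nlinarith
  have hx : (1 - R⁻¹ ^ 2) ^ (-s) = (R ^ 2 / (R ^ 2 - 1)) ^ s := by
    have h3 : 1 - R⁻¹ ^ 2 = (R ^ 2 / (R ^ 2 - 1))⁻¹ := by
      rw [inv_pow]
      field_simp
    rw [h3, Real.inv_rpow (by positivity), Real.rpow_neg (by positivity), inv_inv]
  rw [hx] at hmain
  rw [hk]
  exact hmain


/-- the bound for the class Σ: exponent `t`, growth exponent `s` -/
def SigC (t : ℂ) (s : ℝ) : Prop :=
  ∃ C : ℝ, ∀ ψ h : ℂ → ℂ, DifferentiableOn ℂ ψ {z : ℂ | 1 < ‖z‖} →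
    InjOn ψ {z : ℂ | 1 < ‖z‖} →
    (∃ b : ℂ, Filter.Tendsto (fun z => ψ z - z) (Bornology.cobounded ℂ) (nhds b)) →
    DifferentiableOn ℂ h {z : ℂ | 1 < ‖z‖} →
    (∀ z : ℂ, 1 < ‖z‖ → Complex.exp (h z) = deriv ψ z) →
    Filter.Tendsto h (Bornology.cobounded ℂ) (nhds 0) →
    ∀ R : ℝ, 1 < R →
    (2 * π)⁻¹ * (∫ θ in (0:ℝ)..(2 * π), ‖Complex.exp (t * h (R * Complex.exp (θ * I)))‖) ≤
      C * (R ^ 2 / (R ^ 2 - 1)) ^ s

/-- FinC -/
theorem fin_c {κ dl : ℝ} {u : ℂ} (hu : ‖u‖ = 1) (hκ : 1 ≤ κ) (hdl : 0 ≤ dl)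
    (H : ∀ e : ℝ, 0 < e → ∃ C a₀ : ℝ, a₀ < 1 ∧ ∀ (β L : ℂ → ℂ) (R a : ℝ), ExtR β R → IsLog β L →
      a₀ < a → a < 1 →
      (2 * π)⁻¹ * (∫ α in (0:ℝ)..(2 * π),
        Real.exp (-(κ * (conj u * L (a * Complex.exp (α * I))).re))) ≤
        C * (1 - a ^ 2) ^ (-(κ - 1 + dl + e)))
    {t : ℂ} (ht : κ ≤ ‖t‖) (htu : t = -((‖t‖ : ℂ) * conj u)) {e : ℝ} (he : 0 < e) :
    SigC t (‖t‖ - 1 + dl + e) := by
  have h1 := moment_US (κ := κ) (s := κ - 1 + dl + e) (by linarith) (by linarith) hu (H e he)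
  have h2 := larger_US (κ' := ‖t‖) ht hu h1
  have e1 : κ - 1 + dl + e + (‖t‖ - κ) = ‖t‖ - 1 + dl + e := by ring
  rw [e1] at h2
  obtain ⟨C, hC⟩ := final_US h2
  refine ⟨C, fun ψ h a1 a2 a3 a4 a5 a6 R hR => ?_⟩
  have h3 := hC ψ h a1 a2 a3 a4 a5 a6 R hR
  have h4 : ∀ θ : ℝ, ‖Complex.exp (t * h (R * Complex.exp (θ * I)))‖ =
      Real.exp (-(‖t‖ * (conj u * h (R * Complex.exp (θ * I))).re)) := by
    intro θ
    rw [Complex.norm_exp]
    congr 1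
    have h5 : t * h (R * Complex.exp (θ * I)) =
        -((‖t‖ : ℂ) * (conj u * h (R * Complex.exp (θ * I)))) := by
      rw [← mul_assoc, ← neg_mul, ← htu]
    rw [h5, Complex.neg_re, Complex.re_ofReal_mul]
  simp only [h4]
  exact h3

end Pool.Agent.Helper58.CKC
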