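import Pool.Agent.Helper58.CKC.EntG
import Pool.Agent.Helper97.CKC.Defs
import Pool.Agent.Helper68.EKC.GibbsU

set_option autoImplicit false

open Complex MeasureTheory Metric Set
open scoped Real ComplexConjugate

/-!
Project CKC: the interface `EntC`.
-/

namespace Pool.Agent.Helper58.CKC

open Pool.Agent.Helper52.EK Pool.Agent.Helper97.CKC Pool.Agent.Helper68.EKC

theorem ep_eq (x θ : ℝ) : ep (-x) θ = (Real.exp (-x) : ℂ) * Complex.exp (θ * I) := by
  unfold ep
  rw [Complex.exp_add, Complex.ofReal_exp]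

theorem ep_per (x θ : ℝ) : ep (-x) (θ + 2 * π) = ep (-x) θ := by
  rw [ep_eq, ep_eq]
  push_cast
  rw [add_mul, Complex.exp_add, Complex.exp_two_pi_mul_I, mul_one]

theorem integral_shift {f : ℝ → ℝ} (hf : Function.Periodic f (2 * π)) :
    ∫ θ in (-π)..π, f θ = ∫ θ in (0:ℝ)..(2 * π), f θ := by
  have h2 := hf.intervalIntegral_add_eq (-π) 0
  have e1 : -π + 2 * π = π := by ring
  have e2 : (0:ℝ) + 2 * π = 2 * π := by ring
  rw [e1, e2] at h2
  exact h2

/-- ENT for complex exponents -/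
theorem ent_c : EntC := by
  obtain ⟨C, hC⟩ := entg
  refine ⟨C, ?_⟩
  intro κ u β L R v w x h hL hv hw hw0 hw1 hwp hx0 hx1 m hm _
  have hae : Real.exp (-1) < Real.exp (-x) := by
    rw [Real.exp_lt_exp]; linarith
  have ha1 : Real.exp (-x) < 1 := by
    rw [Real.exp_lt_one_iff]; linarith
  have hmem : ∀ θ : ℝ, ep (-x) θ ∈ ball (0:ℂ) 1 := by
    intro θ
    rw [ep_eq, mem_ball_zero_iff, norm_mul, Complex.norm_exp_ofReal_mul_I, mul_one,
      Complex.norm_real, Real.norm_eq_abs, abs_of_pos (Real.exp_pos _)]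
    exact ha1
  have hep : Continuous (fun θ : ℝ => ep (-x) θ) := by
    simp only [ep_eq]
    fun_prop
  have hLc : Continuous (fun θ : ℝ => L (ep (-x) θ)) := hL.cont.comp_continuous hep hmem
  have hGc : Continuous (fun θ : ℝ => -(κ * (conj u * L (ep (-x) θ)).re)) :=
    (continuous_const.mul (Complex.continuous_re.comp (continuous_const.mul hLc))).neg
  have hGp : Function.Periodic (fun θ : ℝ => -(κ * (conj u * L (ep (-x) θ)).re)) (2 * π) := by
    intro θ
    simp only [ep_per]
  have h1 := hC _ (Real.exp (-x)) v w hGc hGp hv hae ha1 hw hw0 hw1 hwp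
  have e2 : Real.exp (-x) ^ 2 = Real.exp (-2 * x) := by
    rw [← Real.exp_nat_mul]; congr 1; push_cast; ring
  rw [Real.log_exp, e2] at h1
  have hexp : ∀ θ : ℝ, Complex.exp (((θ + 2 * π : ℝ) : ℂ) * I) = Complex.exp (θ * I) := by
    intro θ
    push_cast
    rw [add_mul, Complex.exp_add, Complex.exp_two_pi_mul_I, mul_one]
  have hp1 : Function.Periodic (fun θ : ℝ => w θ * FC κ u L x θ) (2 * π) := by
    intro θ
    simp only [FC, ep_per]
    rw [hwp θ]
  have hp2 : Function.Periodic (fun θ : ℝ => w θ * FC κ u L x θ *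
        (Kf v (Complex.exp (θ * I)) (-1) (-x) - κ * (conj u * L (ep (-x) θ)).re)) (2 * π) := by
    intro θ
    simp only [FC, ep_per]
    rw [hexp θ, hwp θ]
  rw [integral_shift hp1] at hm
  rw [integral_shift hp2, hm]
  simp only [FC, sub_eq_add_neg] at h1 ⊢
  exact h1

end Pool.Agent.Helper58.CKC
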