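import Pool.Agent.Helper5.EK.Entropy
import Pool.Agent.Helper26.EK.KfCont

set_option autoImplicit false

open Complex MeasureTheory Metric Set
open scoped Real ComplexConjugate

/-!
Project CKC: the entropy inequality for a density `u exp g` on one circle (any continuous `g`).
-/

namespace Pool.Agent.Helper58.CKC

open Pool.Agent.Helper52.EK

theorem entg_pos {C : ℝ}
    (hE : ∀ (ρ : ℝ → ℝ) (w : ℂ → ℂ) (a : ℝ), Dens ρ →
      ContinuousOn w {z | 0 < ‖z‖ ∧ ‖z‖ < 1} → Real.exp (-1) < a → a < 1 →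
      -Real.log (1 - a ^ 2) - C ≤ (2 * π)⁻¹ * (∫ α in (0:ℝ)..(2 * π), ρ α * Real.log (ρ α)) +
        (2 * π)⁻¹ * ∫ α in (0:ℝ)..(2 * π), ρ α * Kf w (Complex.exp (α * I)) (-1) (Real.log a))
    {G : ℝ → ℝ} {a : ℝ} {w : ℂ → ℂ} {u : ℝ → ℝ} (hG : Continuous G)
    (hGper : Function.Periodic G (2 * π))
    (hw : ContinuousOn w {z | 0 < ‖z‖ ∧ ‖z‖ < 1}) (hae : Real.exp (-1) < a) (ha1 : a < 1)
    (hu : Continuous u) (hu0 : ∀ α, 0 < u α) (hu1 : ∀ α, u α ≤ 1)
    (hper : Function.Periodic u (2 * π)) :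
    ((2 * π)⁻¹ * ∫ α in (0:ℝ)..(2 * π), u α * Real.exp (G α)) *
        Real.log ((2 * π)⁻¹ * ∫ α in (0:ℝ)..(2 * π), u α * Real.exp (G α)) ≤
      ((2 * π)⁻¹ * ∫ α in (0:ℝ)..(2 * π), u α * Real.exp (G α)) *
        (Real.log (1 - a ^ 2) + C) +
      (2 * π)⁻¹ * ∫ α in (0:ℝ)..(2 * π), u α * Real.exp (G α) *
        (Kf w (Complex.exp (α * I)) (-1) (Real.log a) + G α) := by
  have hap : 0 < a := (Real.exp_pos _).trans hae
  have h2π : (0:ℝ) < 2 * π := by positivity
  obtain ⟨g, hg⟩ : ∃ g : ℝ → ℝ, g = fun α => u α * Real.exp (G α) := ⟨_, rfl⟩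
  have hge : ∀ α : ℝ, u α * Real.exp (G α) = g α := fun α => by rw [hg]
  simp only [hge]
  have hgc : Continuous g := by
    rw [hg]; exact hu.mul (Real.continuous_exp.comp hG)
  have hgp : ∀ α, 0 < g α := fun α => by
    rw [hg]; exact mul_pos (hu0 α) (Real.exp_pos _)
  have hI : 0 < ∫ α in (0:ℝ)..(2 * π), g α :=
    intervalIntegral.intervalIntegral_pos_of_pos (hgc.intervalIntegrable _ _) hgp h2π
  obtain ⟨M, hM⟩ : ∃ M : ℝ, M = (2 * π)⁻¹ * (∫ α in (0:ℝ)..(2 * π), g α) := ⟨_, rfl⟩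
  rw [← hM]
  have hMp : 0 < M := by rw [hM]; exact mul_pos (inv_pos.mpr h2π) hI
  have hdens : Dens (fun α => M⁻¹ * g α) := by
    refine ⟨continuous_const.mul hgc, fun α => mul_pos (inv_pos.mpr hMp) (hgp α), ?_, ?_⟩
    · intro α
      simp only [hg]
      rw [hGper α, hper α]
    · rw [intervalIntegral.integral_const_mul, hM]
      field_simp
  have hlog1 : -1 < Real.log a := (Real.lt_log_iff_exp_lt hap).mpr hae
  have hlog2 : Real.log a < 0 := Real.log_neg hap ha1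
  have hKc : Continuous (fun α : ℝ => Kf w (Complex.exp (α * I)) (-1) (Real.log a)) :=
    Pool.Agent.Helper26.EK.Kf_cont hw hlog1 hlog2
  have hmain := hE _ w a hdens hw hae ha1
  have hlogg : ∀ α, Real.log (M⁻¹ * g α) ≤ G α - Real.log M := by
    intro α
    rw [Real.log_mul (inv_pos.mpr hMp).ne' (hgp α).ne', Real.log_inv]
    have : Real.log (g α) = Real.log (u α) + G α := by
      rw [← hge, Real.log_mul (hu0 α).ne' (Real.exp_pos _).ne', Real.log_exp]
    rw [this]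
    have := Real.log_nonpos (hu0 α).le (hu1 α)
    linarith
  have hi1 : IntervalIntegrable (fun α => M⁻¹ * g α * Real.log (M⁻¹ * g α)) volume 0 (2 * π) :=
    ((continuous_const.mul hgc).mul ((continuous_const.mul hgc).log
      fun α => (mul_pos (inv_pos.mpr hMp) (hgp α)).ne')).intervalIntegrable _ _
  have hi2 : IntervalIntegrable
      (fun α => M⁻¹ * g α * Kf w (Complex.exp (α * I)) (-1) (Real.log a)) volume 0 (2 * π) :=
    ((continuous_const.mul hgc).mul hKc).intervalIntegrable _ _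
  have hi3 : IntervalIntegrable (fun α => g α *
      (Kf w (Complex.exp (α * I)) (-1) (Real.log a) + G α)) volume 0 (2 * π) :=
    (hgc.mul (hKc.add hG)).intervalIntegrable _ _
  have hsum : (∫ α in (0:ℝ)..(2 * π), M⁻¹ * g α * Real.log (M⁻¹ * g α)) +
      (∫ α in (0:ℝ)..(2 * π), M⁻¹ * g α * Kf w (Complex.exp (α * I)) (-1) (Real.log a)) ≤
      M⁻¹ * (∫ α in (0:ℝ)..(2 * π), g α *
        (Kf w (Complex.exp (α * I)) (-1) (Real.log a) + G α)) -
        M⁻¹ * (∫ α in (0:ℝ)..(2 * π), g α) * Real.log M := by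
    have hA : IntervalIntegrable (fun α => M⁻¹ * (g α *
        (Kf w (Complex.exp (α * I)) (-1) (Real.log a) + G α))) volume 0 (2 * π) :=
      hi3.const_mul _
    have hB : IntervalIntegrable (fun α => M⁻¹ * (g α * Real.log M)) volume 0 (2 * π) :=
      (continuous_const.mul (hgc.mul continuous_const)).intervalIntegrable _ _
    have e6 : M⁻¹ * (∫ α in (0:ℝ)..(2 * π), g α *
        (Kf w (Complex.exp (α * I)) (-1) (Real.log a) + G α)) -
        M⁻¹ * (∫ α in (0:ℝ)..(2 * π), g α) * Real.log M =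
        ∫ α in (0:ℝ)..(2 * π), (M⁻¹ * (g α *
        (Kf w (Complex.exp (α * I)) (-1) (Real.log a) + G α)) -
        M⁻¹ * (g α * Real.log M)) := by
      rw [intervalIntegral.integral_sub hA hB, intervalIntegral.integral_const_mul,
        intervalIntegral.integral_const_mul, intervalIntegral.integral_mul_const]
      ring
    rw [e6, ← intervalIntegral.integral_add hi1 hi2]
    apply intervalIntegral.integral_mono_on h2π.le (hi1.add hi2) (hA.sub hB)
    intro α _
    have h1 := mul_le_mul_of_nonneg_left (hlogg α) (mul_pos (inv_pos.mpr hMp) (hgp α)).le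
    show M⁻¹ * g α * Real.log (M⁻¹ * g α) +
      M⁻¹ * g α * Kf w (Complex.exp (α * I)) (-1) (Real.log a) ≤ _
    nlinarith [h1]
  have hone : (2 * π)⁻¹ * (M⁻¹ * (∫ α in (0:ℝ)..(2 * π), g α) * Real.log M) = Real.log M := by
    have e : (2 * π)⁻¹ * (M⁻¹ * (∫ α in (0:ℝ)..(2 * π), g α) * Real.log M) =
        M⁻¹ * ((2 * π)⁻¹ * (∫ α in (0:ℝ)..(2 * π), g α)) * Real.log M := by ring
    rw [e, ← hM, inv_mul_cancel₀ hMp.ne', one_mul]
  have hsum2 := mul_le_mul_of_nonneg_left hsum (inv_pos.mpr h2π).le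
  rw [mul_add, mul_sub, hone] at hsum2
  have h3 := hmain.trans hsum2
  have h4 := mul_le_mul_of_nonneg_left h3 hMp.le
  have e5 : M * ((2 * π)⁻¹ * (M⁻¹ * (∫ α in (0:ℝ)..(2 * π), g α *
        (Kf w (Complex.exp (α * I)) (-1) (Real.log a) + G α))) - Real.log M) =
      (2 * π)⁻¹ * (∫ α in (0:ℝ)..(2 * π), g α *
        (Kf w (Complex.exp (α * I)) (-1) (Real.log a) + G α)) -
        M * Real.log M := by
    obtain ⟨Q, hQ⟩ : ∃ Q : ℝ, Q = ∫ α in (0:ℝ)..(2 * π), g α *
        (Kf w (Complex.exp (α * I)) (-1) (Real.log a) + G α) := ⟨_, rfl⟩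
    rw [← hQ]
    field_simp
  rw [e5] at h4
  linarith

/-- the entropy inequality for a localised density `u exp G` on one circle -/
theorem entg : ∃ C : ℝ, ∀ (G : ℝ → ℝ) (a : ℝ) (w : ℂ → ℂ) (u : ℝ → ℝ), Continuous G →
    Function.Periodic G (2 * π) →
    ContinuousOn w {z | 0 < ‖z‖ ∧ ‖z‖ < 1} → Real.exp (-1) < a → a < 1 →
    Continuous u → (∀ α, 0 ≤ u α) → (∀ α, u α ≤ 1) → Function.Periodic u (2 * π) →
    ((2 * π)⁻¹ * ∫ α in (0:ℝ)..(2 * π), u α * Real.exp (G α)) *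
        Real.log ((2 * π)⁻¹ * ∫ α in (0:ℝ)..(2 * π), u α * Real.exp (G α)) ≤
      ((2 * π)⁻¹ * ∫ α in (0:ℝ)..(2 * π), u α * Real.exp (G α)) *
        (Real.log (1 - a ^ 2) + C) +
      (2 * π)⁻¹ * ∫ α in (0:ℝ)..(2 * π), u α * Real.exp (G α) *
        (Kf w (Complex.exp (α * I)) (-1) (Real.log a) + G α) := by
  obtain ⟨C, hE⟩ := Pool.Agent.Helper5.EK.entropy
  refine ⟨C, ?_⟩
  intro G a w u hG hGper hw hae ha1 hu hu0 hu1 hper
  have hap : 0 < a := (Real.exp_pos _).trans hae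
  have hlog1 : -1 < Real.log a := (Real.lt_log_iff_exp_lt hap).mpr hae
  have hlog2 : Real.log a < 0 := Real.log_neg hap ha1
  have hKc : Continuous (fun α : ℝ => Kf w (Complex.exp (α * I)) (-1) (Real.log a)) :=
    Pool.Agent.Helper26.EK.Kf_cont hw hlog1 hlog2
  obtain ⟨F, hF⟩ : ∃ F : ℝ → ℝ, F = fun α : ℝ => Real.exp (G α) := ⟨_, rfl⟩
  obtain ⟨K, hK⟩ : ∃ K : ℝ → ℝ, K = fun α : ℝ => Kf w (Complex.exp (α * I)) (-1) (Real.log a) +
      G α := ⟨_, rfl⟩
  have hKc' : Continuous K := by rw [hK]; exact hKc.add hG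
  have hFc : Continuous F := by rw [hF]; exact Real.continuous_exp.comp hG
  have hFe : ∀ α : ℝ, Real.exp (G α) = F α := fun α => by rw [hF]
  have hKe : ∀ α : ℝ, Kf w (Complex.exp (α * I)) (-1) (Real.log a) + G α = K α :=
    fun α => by rw [hK]
  simp only [hFe, hKe]
  obtain ⟨m0, hm0⟩ : ∃ m0 : ℝ, m0 = ∫ α in (0:ℝ)..(2 * π), u α * F α := ⟨_, rfl⟩
  obtain ⟨m1, hm1⟩ : ∃ m1 : ℝ, m1 = ∫ α in (0:ℝ)..(2 * π), F α := ⟨_, rfl⟩
  obtain ⟨k0, hk0⟩ : ∃ k0 : ℝ, k0 = ∫ α in (0:ℝ)..(2 * π), u α * F α * K α := ⟨_, rfl⟩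
  obtain ⟨k1, hk1⟩ : ∃ k1 : ℝ, k1 = ∫ α in (0:ℝ)..(2 * π), F α * K α := ⟨_, rfl⟩
  rw [← hm0, ← hk0]
  have hcase : ∀ e : ℝ, 0 < e →
      ((2 * π)⁻¹ * ((1 + e)⁻¹ * (m0 + e * m1))) *
        Real.log ((2 * π)⁻¹ * ((1 + e)⁻¹ * (m0 + e * m1))) ≤
      ((2 * π)⁻¹ * ((1 + e)⁻¹ * (m0 + e * m1))) * (Real.log (1 - a ^ 2) + C) +
      (2 * π)⁻¹ * ((1 + e)⁻¹ * (k0 + e * k1)) := by
    intro e he
    have h1 := entg_pos hE (u := fun α => (1 + e)⁻¹ * (u α + e)) hG hGper hw hae ha1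
      (continuous_const.mul (hu.add continuous_const))
      (fun α => mul_pos (by positivity) (by have := hu0 α; linarith))
      (fun α => by
        rw [inv_mul_le_iff₀ (by positivity)]
        have := hu1 α
        linarith)
      (fun α => by simp only [hper α])
    simp only [hFe, hKe] at h1
    have hj3 : IntervalIntegrable (fun α => u α * F α) volume 0 (2 * π) :=
      (hu.mul hFc).intervalIntegrable _ _
    have hj4 : IntervalIntegrable (fun α => e * F α) volume 0 (2 * π) :=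
      (continuous_const.mul hFc).intervalIntegrable _ _
    have e1 : (∫ α in (0:ℝ)..(2 * π), (1 + e)⁻¹ * (u α + e) * F α) =
        (1 + e)⁻¹ * (m0 + e * m1) := by
      rw [hm0, hm1, ← intervalIntegral.integral_const_mul e,
        ← intervalIntegral.integral_add hj3 hj4,
        ← intervalIntegral.integral_const_mul]
      congr 1
      funext α
      ring
    have hj1 : IntervalIntegrable (fun α => u α * F α * K α) volume 0 (2 * π) :=
      ((hu.mul hFc).mul hKc').intervalIntegrable _ _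
    have hj2 : IntervalIntegrable (fun α => e * (F α * K α)) volume 0 (2 * π) :=
      (continuous_const.mul (hFc.mul hKc')).intervalIntegrable _ _
    have e2 : (∫ α in (0:ℝ)..(2 * π), (1 + e)⁻¹ * (u α + e) * F α * K α) =
        (1 + e)⁻¹ * (k0 + e * k1) := by
      rw [hk0, hk1, ← intervalIntegral.integral_const_mul e,
        ← intervalIntegral.integral_add hj1 hj2,
        ← intervalIntegral.integral_const_mul]
      congr 1
      funext α
      ring
    rw [e1, e2] at h1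
    exact h1
  have hcm : ContinuousAt (fun e : ℝ => (2 * π)⁻¹ * ((1 + e)⁻¹ * (m0 + e * m1))) 0 := by
    have : ContinuousAt (fun e : ℝ => (1 + e)⁻¹) 0 :=
      (continuous_const.add continuous_id).continuousAt.inv₀ (by norm_num)
    exact continuousAt_const.mul (this.mul (by fun_prop))
  have hck : ContinuousAt (fun e : ℝ => (2 * π)⁻¹ * ((1 + e)⁻¹ * (k0 + e * k1))) 0 := by
    have : ContinuousAt (fun e : ℝ => (1 + e)⁻¹) 0 :=
      (continuous_const.add continuous_id).continuousAt.inv₀ (by norm_num)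
    exact continuousAt_const.mul (this.mul (by fun_prop))
  have hcl : ContinuousAt (fun e : ℝ => ((2 * π)⁻¹ * ((1 + e)⁻¹ * (m0 + e * m1))) *
        Real.log ((2 * π)⁻¹ * ((1 + e)⁻¹ * (m0 + e * m1)))) 0 := by
    have := Real.continuous_mul_log.continuousAt.comp
      (f := fun e : ℝ => (2 * π)⁻¹ * ((1 + e)⁻¹ * (m0 + e * m1))) (x := 0) hcm
    exact this
  have hL := hcl.tendsto.mono_left (nhdsWithin_le_nhds (s := Ioi (0:ℝ)))
  have hR := ((hcm.mul (continuousAt_const (y := Real.log (1 - a ^ 2) + C))).add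
    hck).tendsto.mono_left (nhdsWithin_le_nhds (s := Ioi (0:ℝ)))
  have hfin := le_of_tendsto_of_tendsto hL hR
    (by filter_upwards [self_mem_nhdsWithin] with e he using hcase e he)
  simpa using hfin

end Pool.Agent.Helper58.CKC
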