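import Pool.Agent.Helper58.CKC.FinC

set_option autoImplicit false

open Complex MeasureTheory Metric Set
open scoped Real ComplexConjugate

/-!
Project CKC: convexity of the spectrum (Hölder), and the exponent given by the exponential
integrability of `|h|²`.
-/

namespace Pool.Agent.Helper58.CKC

theorem isOpen_ext2 : IsOpen {z : ℂ | 1 < ‖z‖} := isOpen_lt continuous_const continuous_norm

theorem circ_ext {R : ℝ} (hR : 1 < R) (θ : ℝ) :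
    (R : ℂ) * Complex.exp (θ * I) ∈ {z : ℂ | 1 < ‖z‖} := by
  rw [mem_ofPred_eq, norm_mul, Complex.norm_exp_ofReal_mul_I, mul_one, Complex.norm_real,
    Real.norm_eq_abs, abs_of_pos (by linarith)]
  exact hR

theorem h_circ_cont {h : ℂ → ℂ} (hh : DifferentiableOn ℂ h {z : ℂ | 1 < ‖z‖}) {R : ℝ}
    (hR : 1 < R) : Continuous (fun θ : ℝ => h (R * Complex.exp (θ * I))) :=
  hh.continuousOn.comp_continuous (by fun_prop) (circ_ext hR)

/-- convexity of the spectrum -/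
theorem SigC.interp {t₀ t₁ : ℂ} {s₀ s₁ : ℝ} (h₀ : SigC t₀ s₀) (h₁ : SigC t₁ s₁) {θ : ℝ}
    (hθ0 : 0 ≤ θ) (hθ1 : θ ≤ 1) :
    SigC (((1 - θ : ℝ) : ℂ) * t₀ + (θ : ℂ) * t₁) ((1 - θ) * s₀ + θ * s₁) := by
  obtain ⟨C₀, hC₀⟩ := h₀
  obtain ⟨C₁, hC₁⟩ := h₁
  refine ⟨(max C₀ 1) ^ (1 - θ) * (max C₁ 1) ^ θ, ?_⟩
  intro ψ h a1 a2 a3 a4 a5 a6 R hR
  have hπ : (0:ℝ) < 2 * π := by positivity
  have hR2 : 0 < R ^ 2 - 1 := by nlinarith
  have hX : 0 < R ^ 2 / (R ^ 2 - 1) := by positivity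
  obtain ⟨X, hXe⟩ : ∃ X : ℝ, X = R ^ 2 / (R ^ 2 - 1) := ⟨_, rfl⟩
  rw [← hXe] at hX ⊢
  obtain ⟨A, hA⟩ : ∃ A : ℝ, A = max C₀ 1 * X ^ s₀ := ⟨_, rfl⟩
  obtain ⟨B, hB⟩ : ∃ B : ℝ, B = max C₁ 1 * X ^ s₁ := ⟨_, rfl⟩
  have hA0 : 0 < A := by rw [hA]; positivity
  have hB0 : 0 < B := by rw [hB]; positivity
  have hg := h_circ_cont a4 hR
  have hf : ∀ t : ℂ, Continuous (fun φ : ℝ =>
      ‖Complex.exp (t * h (R * Complex.exp (φ * I)))‖) := fun t =>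
    (Complex.continuous_exp.comp (continuous_const.mul hg)).norm
  have hm0 : (2 * π)⁻¹ * (∫ φ in (0:ℝ)..(2 * π),
      ‖Complex.exp (t₀ * h (R * Complex.exp (φ * I)))‖) ≤ A := by
    have := hC₀ ψ h a1 a2 a3 a4 a5 a6 R hR
    rw [← hXe] at this
    rw [hA]
    exact this.trans (mul_le_mul_of_nonneg_right (le_max_left _ _) (by positivity))
  have hm1 : (2 * π)⁻¹ * (∫ φ in (0:ℝ)..(2 * π),
      ‖Complex.exp (t₁ * h (R * Complex.exp (φ * I)))‖) ≤ B := by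
    have := hC₁ ψ h a1 a2 a3 a4 a5 a6 R hR
    rw [← hXe] at this
    rw [hB]
    exact this.trans (mul_le_mul_of_nonneg_right (le_max_left _ _) (by positivity))
  have hpt : ∀ φ : ℝ, ‖Complex.exp ((((1 - θ : ℝ) : ℂ) * t₀ + (θ : ℂ) * t₁) *
      h (R * Complex.exp (φ * I)))‖ ≤ (A ^ (1 - θ) * B ^ θ) * ((1 - θ) * A⁻¹ *
      ‖Complex.exp (t₀ * h (R * Complex.exp (φ * I)))‖ + θ * B⁻¹ *
      ‖Complex.exp (t₁ * h (R * Complex.exp (φ * I)))‖) := by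
    intro φ
    obtain ⟨w, hw⟩ : ∃ w : ℂ, w = h (R * Complex.exp (φ * I)) := ⟨_, rfl⟩
    rw [← hw]
    have e1 : ‖Complex.exp ((((1 - θ : ℝ) : ℂ) * t₀ + (θ : ℂ) * t₁) * w)‖ =
        ‖Complex.exp (t₀ * w)‖ ^ (1 - θ) * ‖Complex.exp (t₁ * w)‖ ^ θ := by
      rw [Complex.norm_exp, Complex.norm_exp, Complex.norm_exp, ← Real.exp_mul, ← Real.exp_mul,
        ← Real.exp_add]
      congr 1
      rw [add_mul, Complex.add_re, mul_assoc, mul_assoc, Complex.re_ofReal_mul,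
        Complex.re_ofReal_mul]
      ring
    rw [e1]
    have h2 := Real.geom_mean_le_arith_mean2_weighted (w₁ := 1 - θ) (w₂ := θ)
      (p₁ := ‖Complex.exp (t₀ * w)‖ / A) (p₂ := ‖Complex.exp (t₁ * w)‖ / B)
      (by linarith) hθ0 (by positivity) (by positivity) (by ring)
    rw [Real.div_rpow (norm_nonneg _) hA0.le, Real.div_rpow (norm_nonneg _) hB0.le] at h2
    have hAp : 0 < A ^ (1 - θ) := by positivity
    have hBp : 0 < B ^ θ := by positivity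
    calc ‖Complex.exp (t₀ * w)‖ ^ (1 - θ) * ‖Complex.exp (t₁ * w)‖ ^ θ
        = (A ^ (1 - θ) * B ^ θ) * (‖Complex.exp (t₀ * w)‖ ^ (1 - θ) / A ^ (1 - θ) *
          (‖Complex.exp (t₁ * w)‖ ^ θ / B ^ θ)) := by field_simp
      _ ≤ (A ^ (1 - θ) * B ^ θ) * ((1 - θ) * (‖Complex.exp (t₀ * w)‖ / A) +
          θ * (‖Complex.exp (t₁ * w)‖ / B)) := mul_le_mul_of_nonneg_left h2 (by positivity)
      _ = _ := by ring
  have hi0 : IntervalIntegrable (fun φ : ℝ => (1 - θ) * A⁻¹ *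
      ‖Complex.exp (t₀ * h (R * Complex.exp (φ * I)))‖) volume 0 (2 * π) :=
    (continuous_const.mul (hf t₀)).intervalIntegrable _ _
  have hi1 : IntervalIntegrable (fun φ : ℝ => θ * B⁻¹ *
      ‖Complex.exp (t₁ * h (R * Complex.exp (φ * I)))‖) volume 0 (2 * π) :=
    (continuous_const.mul (hf t₁)).intervalIntegrable _ _
  have hint := intervalIntegral.integral_mono_on hπ.le ((hf _).intervalIntegrable _ _)
    ((hi0.add hi1).const_mul (A ^ (1 - θ) * B ^ θ)) (fun φ _ => hpt φ)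
  rw [intervalIntegral.integral_const_mul, intervalIntegral.integral_add hi0 hi1,
    intervalIntegral.integral_const_mul, intervalIntegral.integral_const_mul] at hint
  have e3 : (max C₀ 1) ^ (1 - θ) * (max C₁ 1) ^ θ * X ^ ((1 - θ) * s₀ + θ * s₁) =
      A ^ (1 - θ) * B ^ θ := by
    rw [hA, hB, Real.mul_rpow (by positivity) (by positivity),
      Real.mul_rpow (by positivity) (by positivity), ← Real.rpow_mul hX.le,
      ← Real.rpow_mul hX.le, Real.rpow_add hX, mul_comm s₀, mul_comm s₁]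
    ring
  rw [e3]
  obtain ⟨I₀, hI₀⟩ : ∃ x : ℝ, x = ∫ φ in (0:ℝ)..(2 * π),
      ‖Complex.exp (t₀ * h (R * Complex.exp (φ * I)))‖ := ⟨_, rfl⟩
  obtain ⟨I₁, hI₁⟩ : ∃ x : ℝ, x = ∫ φ in (0:ℝ)..(2 * π),
      ‖Complex.exp (t₁ * h (R * Complex.exp (φ * I)))‖ := ⟨_, rfl⟩
  rw [← hI₀, ← hI₁] at hint
  rw [← hI₀] at hm0
  rw [← hI₁] at hm1
  have hP : 0 < A ^ (1 - θ) * B ^ θ := by positivity
  calc (2 * π)⁻¹ * (∫ φ in (0:ℝ)..(2 * π), ‖Complex.exp ((((1 - θ : ℝ) : ℂ) * t₀ +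
        (θ : ℂ) * t₁) * h (R * Complex.exp (φ * I)))‖)
      ≤ (2 * π)⁻¹ * ((A ^ (1 - θ) * B ^ θ) * ((1 - θ) * A⁻¹ * I₀ + θ * B⁻¹ * I₁)) :=
        mul_le_mul_of_nonneg_left hint (by positivity)
    _ = (A ^ (1 - θ) * B ^ θ) * ((1 - θ) * A⁻¹ * ((2 * π)⁻¹ * I₀) +
        θ * B⁻¹ * ((2 * π)⁻¹ * I₁)) := by ring
    _ ≤ (A ^ (1 - θ) * B ^ θ) * ((1 - θ) * A⁻¹ * A + θ * B⁻¹ * B) := by
        apply mul_le_mul_of_nonneg_left _ hP.le
        apply add_le_add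
        · exact mul_le_mul_of_nonneg_left hm0 (mul_nonneg (by linarith) (by positivity))
        · exact mul_le_mul_of_nonneg_left hm1 (by positivity)
    _ = A ^ (1 - θ) * B ^ θ := by
        rw [mul_assoc (1 - θ), mul_assoc θ, inv_mul_cancel₀ hA0.ne', inv_mul_cancel₀ hB0.ne']
        ring

theorem SigC.mono {t : ℂ} {s s' : ℝ} (h : SigC t s) (hs : s ≤ s') : SigC t s' := by
  obtain ⟨C, hC⟩ := h
  refine ⟨max C 0, ?_⟩
  intro ψ h a1 a2 a3 a4 a5 a6 R hR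
  have hR2 : 0 < R ^ 2 - 1 := by nlinarith
  have h1 := hC ψ h a1 a2 a3 a4 a5 a6 R hR
  have hX1 : 1 ≤ R ^ 2 / (R ^ 2 - 1) := by
    rw [one_le_div hR2]; linarith
  calc _ ≤ C * (R ^ 2 / (R ^ 2 - 1)) ^ s := h1
    _ ≤ max C 0 * (R ^ 2 / (R ^ 2 - 1)) ^ s :=
        mul_le_mul_of_nonneg_right (le_max_left _ _) (by positivity)
    _ ≤ max C 0 * (R ^ 2 / (R ^ 2 - 1)) ^ s' :=
        mul_le_mul_of_nonneg_left (Real.rpow_le_rpow_of_exponent_le hX1 hs) (le_max_right _ _)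

/-- exponential integrability of `|h|²` with constant `a` (the inequality of Marshall's
conjecture) -/
def Mar (a : ℝ) : Prop :=
  ∃ C : ℝ, ∀ R : ℝ, 1 < R → ∀ ψ h : ℂ → ℂ,
    DifferentiableOn ℂ ψ {z : ℂ | 1 < ‖z‖} →
    Set.InjOn ψ {z : ℂ | 1 < ‖z‖} →
    (∃ b : ℂ, Filter.Tendsto (fun z => ψ z - z) (Bornology.cobounded ℂ) (nhds b)) →
    DifferentiableOn ℂ h {z : ℂ | 1 < ‖z‖} →
    (∀ z : ℂ, 1 < ‖z‖ → Complex.exp (h z) = deriv ψ z) →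
    Filter.Tendsto h (Bornology.cobounded ℂ) (nhds 0) →
    (1 / (2 * Real.pi)) * ∫ θ in (0:ℝ)..(2 * Real.pi),
      Real.exp (a * ‖h ((R : ℂ) * Complex.exp ((θ : ℂ) * Complex.I))‖ ^ 2
        / Real.log (R ^ 2 / (R ^ 2 - 1))) ≤ C

theorem sig_of_mar {a : ℝ} (ha : 0 < a) (H : Mar a) (t : ℂ) : SigC t (‖t‖ ^ 2 / (4 * a)) := by
  obtain ⟨C, hC⟩ := H
  refine ⟨C, ?_⟩
  intro ψ h a1 a2 a3 a4 a5 a6 R hR
  have hπ : (0:ℝ) < 2 * π := by positivity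
  have hR2 : 0 < R ^ 2 - 1 := by nlinarith
  have hX1 : 1 < R ^ 2 / (R ^ 2 - 1) := by
    rw [one_lt_div hR2]; linarith
  obtain ⟨X, hXe⟩ : ∃ X : ℝ, X = R ^ 2 / (R ^ 2 - 1) := ⟨_, rfl⟩
  have h1 := hC R hR ψ h a1 a2 a3 a4 a5 a6
  rw [← hXe] at hX1 h1 ⊢
  have hX0 : 0 < X := by linarith
  have hL : 0 < Real.log X := Real.log_pos hX1
  have hg := h_circ_cont a4 hR
  have hc1 : Continuous (fun φ : ℝ => ‖Complex.exp (t * h (R * Complex.exp (φ * I)))‖) :=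
    (Complex.continuous_exp.comp (continuous_const.mul hg)).norm
  have hc2 : Continuous (fun φ : ℝ =>
      Real.exp (a * ‖h (R * Complex.exp (φ * I))‖ ^ 2 / Real.log X)) :=
    Real.continuous_exp.comp ((continuous_const.mul (hg.norm.pow 2)).div_const _)
  have hpt : ∀ φ : ℝ, ‖Complex.exp (t * h (R * Complex.exp (φ * I)))‖ ≤
      X ^ (‖t‖ ^ 2 / (4 * a)) *
        Real.exp (a * ‖h (R * Complex.exp (φ * I))‖ ^ 2 / Real.log X) := by
    intro φ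
    obtain ⟨w, hw⟩ : ∃ w : ℂ, w = h (R * Complex.exp (φ * I)) := ⟨_, rfl⟩
    rw [← hw, Complex.norm_exp, Real.rpow_def_of_pos hX0, ← Real.exp_add]
    apply Real.exp_le_exp.mpr
    have h2 : (t * w).re ≤ ‖t‖ * ‖w‖ := by
      rw [← norm_mul]; exact Complex.re_le_norm _
    have h3 : ‖t‖ * ‖w‖ ≤ Real.log X * (‖t‖ ^ 2 / (4 * a)) + a * ‖w‖ ^ 2 / Real.log X := by
      have h4 : 0 ≤ (‖t‖ * Real.log X - 2 * a * ‖w‖) ^ 2 / (4 * a * Real.log X) := by positivity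
      have h5 : (‖t‖ * Real.log X - 2 * a * ‖w‖) ^ 2 / (4 * a * Real.log X) =
          Real.log X * (‖t‖ ^ 2 / (4 * a)) + a * ‖w‖ ^ 2 / Real.log X - ‖t‖ * ‖w‖ := by
        field_simp
        ring
      linarith
    linarith
  have hj1 : IntervalIntegrable
      (fun φ : ℝ => ‖Complex.exp (t * h (R * Complex.exp (φ * I)))‖) MeasureTheory.volume
      0 (2 * π) := hc1.intervalIntegrable _ _
  have hj2 : IntervalIntegrable
      (fun φ : ℝ => X ^ (‖t‖ ^ 2 / (4 * a)) *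
        Real.exp (a * ‖h (R * Complex.exp (φ * I))‖ ^ 2 / Real.log X)) MeasureTheory.volume
      0 (2 * π) := (continuous_const.mul hc2).intervalIntegrable _ _
  have hint := intervalIntegral.integral_mono_on hπ.le hj1 hj2 (fun φ _ => hpt φ)
  rw [intervalIntegral.integral_const_mul] at hint
  have hp : 0 < X ^ (‖t‖ ^ 2 / (4 * a)) := by positivity
  rw [one_div] at h1
  calc (2 * π)⁻¹ * (∫ φ in (0:ℝ)..(2 * π), ‖Complex.exp (t * h (R * Complex.exp (φ * I)))‖)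
      ≤ (2 * π)⁻¹ * (X ^ (‖t‖ ^ 2 / (4 * a)) * ∫ φ in (0:ℝ)..(2 * π),
        Real.exp (a * ‖h (R * Complex.exp (φ * I))‖ ^ 2 / Real.log X)) :=
        mul_le_mul_of_nonneg_left hint (by positivity)
    _ = X ^ (‖t‖ ^ 2 / (4 * a)) * ((2 * π)⁻¹ * ∫ φ in (0:ℝ)..(2 * π),
        Real.exp (a * ‖h (R * Complex.exp (φ * I))‖ ^ 2 / Real.log X)) := by ring
    _ ≤ X ^ (‖t‖ ^ 2 / (4 * a)) * C := mul_le_mul_of_nonneg_left h1 hp.le
    _ = C * X ^ (‖t‖ ^ 2 / (4 * a)) := mul_comm _ _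

end Pool.Agent.Helper58.CKC
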