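import Pool.Agent.Helper97.EKC.Sharp

set_option autoImplicit false

open Complex MeasureTheory Metric Set
open scoped Real ComplexConjugate

/-!
Project CKC: the lower bound (spirals) for every complex exponent off the positive real axis.
-/

namespace Pool.Agent.Helper58.CKC

/-- the growth exponent `‖t‖ - 1` is attained in the class Σ -/
def LowC (t : ℂ) : Prop :=
  ∃ ψ h : ℂ → ℂ, DifferentiableOn ℂ ψ {z : ℂ | 1 < ‖z‖} ∧
    InjOn ψ {z : ℂ | 1 < ‖z‖} ∧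
    (∃ b : ℂ, Filter.Tendsto (fun z => ψ z - z) (Bornology.cobounded ℂ) (nhds b)) ∧
    DifferentiableOn ℂ h {z : ℂ | 1 < ‖z‖} ∧
    (∀ z : ℂ, 1 < ‖z‖ → Complex.exp (h z) = deriv ψ z) ∧
    Filter.Tendsto h (Bornology.cobounded ℂ) (nhds 0) ∧
    ∃ c : ℝ, 0 < c ∧ ∀ R : ℝ, 1 < R →
      c * (R ^ 2 / (R ^ 2 - 1)) ^ (‖t‖ - 1) ≤
        (2 * π)⁻¹ *
          (∫ θ in (0:ℝ)..(2 * π), ‖Complex.exp (t * h (R * Complex.exp (θ * I)))‖)

theorem low_c {t : ℂ} (h1 : 1 < ‖t‖) (h2 : t ≠ (‖t‖ : ℂ)) : LowC t := by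
  have hn0 : 0 < ‖t‖ := by linarith
  set u : ℂ := -(conj t / ‖t‖) with hu
  have hu1 : ‖u‖ = 1 := by
    rw [hu, norm_neg, norm_div, RCLike.norm_conj, Complex.norm_real, norm_norm, div_self hn0.ne']
  have hnC : (‖t‖ : ℂ) ≠ 0 := by exact_mod_cast hn0.ne'
  have hne : u ≠ -1 := by
    intro h
    apply h2
    have h3 : conj t = (‖t‖ : ℂ) := by
      have h4 : conj t / ‖t‖ = 1 := by
        rw [hu] at h
        linear_combination -h
      rwa [div_eq_one_iff_eq hnC] at h4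
    have h5 := congrArg conj h3
    rwa [Complex.conj_conj, Complex.conj_ofReal] at h5
  obtain ⟨ψ, h, a1, a2, a3, a4, a5, a6, a7⟩ := Pool.Agent.Helper97.EKC.sharp_u hu1 hne
  obtain ⟨c, hc, hR⟩ := a7 ‖t‖ h1
  refine ⟨ψ, h, a1, a2, a3, a4, a5, a6, c, hc, fun R h3 => ?_⟩
  have h4 := hR R h3
  have h7 : -((‖t‖ : ℝ) : ℂ) * conj u = t := by
    rw [hu, map_neg, map_div₀, Complex.conj_conj, Complex.conj_ofReal]
    field_simp
  simp only [Complex.norm_exp]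
  simp only [h7] at h4
  exact h4

end Pool.Agent.Helper58.CKC
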